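import Pool.Agent.Lib.MP_aa9b81_an.Mg.G001

/-!
# The cutting theorem

`Γ` is a countable discrete group acting amenably on a compact convex set `Q`, `W = Cone Q` is the
open cone on `Q`. `K1Zero Γ Y` says that `K₁(C₀(Y) ⋊_r Γ) = 0`, `K1Bij Γ p` that `p : Z → Y` induces
a bijection `K₁(C₀(Y) ⋊_r Γ) → K₁(C₀(Z) ⋊_r Γ)`. Part (0): the groups
`K₁(C₀(Y × W × (0,1)^j) ⋊_r Γ)` vanish for all large `j` if and only if the projection `Y × Q → Y`
induces isomorphisms of the `K`-groups of the crossed products. Part (A): they do not change if a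
finite dimensional space `X` with amenable isotropy is replaced by a suitable totally disconnected
space `Z` over it. Part (B): they vanish for all these spaces if they vanish for the subshifts of
finite type.
-/

open Filter Topology

namespace Pool.Agent.Results.MP_aa9b81_an.CuttingTheorem

open Pool.Agent.Lib.MP_aa9b81_an.Cut

theorem result (Γ E : Type) [Group Γ] [Countable Γ] [AddCommGroup E] [Module ℝ E]
    [TopologicalSpace E] [T2Space E] [ContinuousAdd E] [ContinuousSMul ℝ E]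
    [DistribMulAction Γ E] [SMulCommClass Γ ℝ E] [ContinuousConstSMul Γ E]
    (Q : ConvexSpace Γ E) (hQ : AmenableAction Γ Q.Pt) :
    -- (0) the meaning of the vanishing
    (∀ (Y : Type) [TopologicalSpace Y] [T2Space Y] [LocallyCompactSpace Y] [MulAction Γ Y]
      [ContinuousConstSMul Γ Y],
      (∀ᶠ j in atTop, K1Zero Γ (Y × Cone Q × Cube j)) ↔
        ∀ᶠ j in atTop, K1Bij Γ (fun x : Y × Q.Pt × Cube j => ((x.1, x.2.2) : Y × Cube j))) ∧
    -- (A) cutting
    (∀ (X : Type) [TopologicalSpace X] [TopologicalSpace.MetrizableSpace X]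
      [LocallyCompactSpace X] [SigmaCompactSpace X] [MulAction Γ X] [ContinuousConstSMul Γ X]
      (d : ℕ), DimLE X d → (∀ x : X, AmenableGroup (MulAction.stabilizer Γ x)) →
      ∃ (Z : Type) (_ : TopologicalSpace Z) (_ : MulAction Γ Z) (p : Z → X),
        IsProperMap p ∧ (∀ (g : Γ) z, p (g • z) = g • p z) ∧ Function.Surjective p ∧
        ContinuousConstSMul Γ Z ∧ TopologicalSpace.MetrizableSpace Z ∧ LocallyCompactSpace Z ∧
        SigmaCompactSpace Z ∧ TotallyDisconnectedSpace Z ∧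
        (∀ z : Z, AmenableGroup (MulAction.stabilizer Γ z)) ∧
        ((∀ x : X, MulAction.stabilizer Γ x = ⊥) → ∀ x, (p ⁻¹' {x}).encard ≤ 2 ^ d) ∧
        ∀ j > 0, K1Bij Γ (fun z : Z × Cone Q × Cube j => ((p z.1, z.2) : X × Cone Q × Cube j))) ∧
    -- (B) subshifts of finite type suffice
    (∀ J, (∀ j ≥ J, ∀ (n : ℕ) (F : Finset Γ) (P : Set (F → Fin n)),
        K1Zero Γ (SFT Γ n F P × Cone Q × Cube j)) →
      (∀ j ≥ J, ∀ (Z : Type) [TopologicalSpace Z] [T2Space Z] [LocallyCompactSpace Z]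
        [TotallyDisconnectedSpace Z] [MulAction Γ Z] [ContinuousConstSMul Γ Z],
        K1Zero Γ (Z × Cone Q × Cube j)) ∧
      ∀ j > J, ∀ (X : Type) [TopologicalSpace X] [TopologicalSpace.MetrizableSpace X]
        [LocallyCompactSpace X] [SigmaCompactSpace X] [MulAction Γ X] [ContinuousConstSMul Γ X]
        (d : ℕ), DimLE X d → (∀ x : X, AmenableGroup (MulAction.stabilizer Γ x)) →
        K1Zero Γ (X × Cone Q × Cube j)) := by
  have := cone_locallyCompact Q
  refine ⟨?_, ?_, ?_⟩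
  · intro Y _ _ _ _ _
    have hA := propA_of_convexSpace Q hQ
    have h := eventually_le_iff Q (Y := Y) hA
    constructor
    · intro h1
      have h2 := h.1 (h1.mono fun j hj => k1Zero_iff.1 hj)
      exact h2.mono fun j hj => (k1Bij_iff (isProperMap_prQ Q) (prQ_smul Q)).2 hj
    · intro h1
      have h2 := h.2 (h1.mono fun j hj => (k1Bij_iff (isProperMap_prQ Q) (prQ_smul Q)).1 hj)
      exact h2.mono fun j hj => k1Zero_iff.2 hj
  · intro X _ _ _ _ _ _ d hd hX
    obtain ⟨Z, tZ, aZ, p, hp, he, hs, h1, h2, h3, h4, h5, h6, h7, h8⟩ := cutting Q hQ hd hX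
    refine ⟨Z, tZ, aZ, p, hp, he, hs, h1, h2, h3, h4, h5, h6, h7, fun j hj => ?_⟩
    obtain ⟨i, rfl⟩ : ∃ i, j = i + 1 := ⟨j - 1, by omega⟩
    have hp' : IsProperMap (Prod.map p (id : Cone Q × Cube (i + 1) → Cone Q × Cube (i + 1))) :=
      hp.prodMap isProperMap_id
    have he' : ∀ (g : Γ) x,
        Prod.map p (id : Cone Q × Cube (i + 1) → Cone Q × Cube (i + 1)) (g • x) =
          g • Prod.map p (id : Cone Q × Cube (i + 1) → Cone Q × Cube (i + 1)) x :=
      fun g x => Prod.ext (he g x.1) rfl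
    exact (k1Bij_iff hp' he').2 (h8 i)
  · intro J h
    have h0 : ∀ j ≥ J, ∀ (n : ℕ) (F : Finset Γ) (P : Set (F → Fin n)),
        GL1 (cp Γ (SFT Γ n F P × Cone Q × Cube j)) ≤ E1 (cp Γ (SFT Γ n F P × Cone Q × Cube j)) :=
      fun j hj n F P => k1Zero_iff.1 (h j hj n F P)
    refine ⟨fun j hj Z _ _ _ _ _ _ => ?_, fun j hj X _ _ _ _ _ _ d hd hX => ?_⟩
    · exact k1Zero_iff.2 (sft_suffice_lc Q hQ j (h0 j hj)
        (h0 (j + 1) (hj.trans (Nat.le_succ j)) 1 ∅ Set.univ))
    · obtain ⟨i, rfl⟩ : ∃ i, j = i + 1 := ⟨j - 1, by omega⟩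
      exact k1Zero_iff.2 (sft_suffice_dim Q hQ i (h0 (i + 1) (by omega))
        (h0 (i + 2) (by omega) 1 ∅ Set.univ) hd hX)

end Pool.Agent.Results.MP_aa9b81_an.CuttingTheorem
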