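import Pool.Agent.Lib.MP_aa9b81_an.Hs.J1

/-!
# Hereditary shifts

`Γ` is a countable discrete group, `Q` a compact convex `Γ`-space, `W = Cone Q` the open cone on `Q`,
`I` a countable `Γ`-set with an equivariant map to `Q`, `A` a compact metrizable space with a base
point `a₀`, `Z` a locally compact `Γ`-space, and `Y ⊆ Z × A^I` a closed invariant subset which is
hereditary: stable under resetting coordinates to `a₀`. Then `K₁(C₀(Y* × W × (0,1)^j) ⋊_r Γ) = 0`
for the complement `Y*` of the zero section, for all `j`. If `Γ` acts amenably on `Q` the restriction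
to the zero section is bijective on `K₁`, for all `j > 0`.
-/

namespace Pool.Agent.Results.MP_aa9b81_an.HereditaryShifts

open Pool.Agent.Lib.MP_aa9b81_an.Cut
open Pool.Agent.Lib.MP_aa9b81_an.Hs

theorem result (Γ E : Type) [Group Γ] [Countable Γ] [AddCommGroup E] [Module ℝ E]
    [TopologicalSpace E] [T2Space E] [ContinuousAdd E] [ContinuousSMul ℝ E]
    [DistribMulAction Γ E] [SMulCommClass Γ ℝ E] [ContinuousConstSMul Γ E]
    (Q : ConvexSpace Γ E) (I : Type) [Countable I] [MulAction Γ I] (q : I → Q.Pt)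
    (hq : ∀ (g : Γ) i, q (g • i) = g • q i)
    (A : Type) [TopologicalSpace A] [CompactSpace A] [TopologicalSpace.MetrizableSpace A] (a₀ : A)
    (Z : Type) [TopologicalSpace Z] [T2Space Z] [LocallyCompactSpace Z] [MulAction Γ Z]
    [ContinuousConstSMul Γ Z] (Y : Hered Γ Z I A a₀) :
    (∀ j, K1Zero Γ (Y.St × Cone Q × Cube j)) ∧
    (AmenableAction Γ Q.Pt → ∀ j > 0,
      K1Bij Γ (fun x : Y.Z0 × Cone Q × Cube j => ((Y.zs x.1, x.2) : Y.Pt × Cone Q × Cube j))) := by
  refine ⟨fun j => k1Zero_iff.2 (GL1_le_E1_St Y (Cube j) Q hq), fun hQ j hj => ?_⟩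
  obtain ⟨i, rfl⟩ : ∃ i, j = i + 1 := ⟨j - 1, by omega⟩
  have hp : IsProperMap (Prod.map Y.zs (id : Cone Q × Cube (i + 1) → Cone Q × Cube (i + 1))) :=
    (isClosedEmbedding_zs Y).isProperMap.prodMap isProperMap_id
  have he : ∀ (g : Γ) x,
      Prod.map Y.zs (id : Cone Q × Cube (i + 1) → Cone Q × Cube (i + 1)) (g • x) =
        g • Prod.map Y.zs (id : Cone Q × Cube (i + 1) → Cone Q × Cube (i + 1)) x :=
    fun g x => rfl
  exact (k1Bij_iff hp he).2 (isoU_zs Y Q hQ hq i)

end Pool.Agent.Results.MP_aa9b81_an.HereditaryShifts
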