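import Pool.Agent.Lib.MP_aa9b81_an.H.E3
import Pool.Agent.Lib.MP_aa9b81_an.H.F2
import Pool.Agent.Lib.MP_aa9b81_an.H.PMain
import Pool.Agent.Lib.MP_aa9b81_an.HN.N5
import Pool.Agent.Lib.MP_aa9b81_an.HN.N7

/-!
# Hyperbolic returns and the K-theory of reduced crossed products

`Cc G X` is the convolution algebra of continuous compactly supported functions on `X × G`
(the groupoid `X ⋊ G`), `redNorm` its reduced norm, `uncNorm F = redNorm |F|`.
Main theorem: if the `G`-space `X` has hyperbolic returns then the natural homomorphism from the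
completion of `Cc G X` for the unconditional norm `uncNorm` to the reduced crossed product (the
completion for `redNorm`) is bijective on classes of idempotent matrices and on `π₀(GL_n)` for
all `n`, hence on `K_0` and `K_1`. Two families of `G`-spaces with hyperbolic returns: the spaces over
`G ⧸ H`, for a closed subgroup `H` with a hyperbolic length of slow growth, and the universal space of
all hyperbolic nets in `G` (and everything over it).
-/

open MeasureTheory MeasureTheory.Measure Topology

namespace Pool.Agent.Lib.MP_aa9b81_an.Old.HyperbolicReturns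

open Pool.Agent.BCH

universe u v

theorem result :
    -- (1) the unconditional norm; the K-theory theorem for hyperbolic `G`-spaces
    (∀ (G : Type u) [Group G] [TopologicalSpace G] [IsTopologicalGroup G]
      [LocallyCompactSpace G] [SecondCountableTopology G] [T2Space G] [MeasurableSpace G]
      [BorelSpace G] (X : Type v) [TopologicalSpace X] [T2Space X] [MulAction G X]
      [ContinuousSMul G X],
      (∀ F : Cc G X, redNorm F = 0 → F = 0) ∧
      (∀ F H : Cc G X, (∀ p, ‖F p‖ ≤ ‖H p‖) → uncNorm F ≤ uncNorm H) ∧
      (HyperbolicGSpace G X →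
        ∃ (B B' : Type (max u v)) (_ : NormedRing B) (_ : NormedAlgebra ℂ B)
          (_ : CompleteSpace B) (_ : NormedRing B') (_ : NormedAlgebra ℂ B')
          (_ : CompleteSpace B') (ι : Cc G X → B) (ι' : Cc G X → B') (φ : B →ₐ[ℂ] B'),
          IsCompletion uncNorm ι ∧ IsCompletion redNorm ι' ∧ Continuous φ ∧
            (∀ F, φ (ι F) = ι' F) ∧ KBij (φ : B →+* B'))) ∧
    -- (2) every `G`-space over `G ⧸ H` is hyperbolic, if the closed subgroup `H` has a hyperbolic
    -- length function of slow growth
    (∀ (G : Type u) [Group G] [TopologicalSpace G] [IsTopologicalGroup G]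
      [LocallyCompactSpace G] [SecondCountableTopology G] [T2Space G] [MeasurableSpace G]
      [BorelSpace G] (H : Subgroup G) (_ : IsClosed (H : Set G)) (ℓ : H → ℝ) (δ : ℝ)
      (_ : HypLength ℓ δ) (_ : SlowGrowth ℓ)
      (X : Type v) [TopologicalSpace X] [MulAction G X] (f : X → G ⧸ H) (_ : Continuous f)
      (_ : ∀ (g : G) (x : X), f (g • x) = g • f x), HyperbolicGSpace G X) ∧
    -- (3) the space of all hyperbolic nets in `G` with given constants is a locally compact Hausdorff
    -- `G`-space; it is hyperbolic, and so is every `G`-space over it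
    (∀ (G : Type u) [Group G] [TopologicalSpace G] [IsTopologicalGroup G]
      [LocallyCompactSpace G] [SecondCountableTopology G] [T2Space G] [MeasurableSpace G]
      [BorelSpace G] (V : Set G) (U : ℕ → Set G) (B δ : ℕ) (_ : IsOpen V) (_ : (1 : G) ∈ V)
      (_ : ∀ n, IsOpen (U n)) (_ : ∀ g : G, ∃ n, g ∈ U n),
      T2Space (HypNet G V U B δ) ∧ LocallyCompactSpace (HypNet G V U B δ) ∧
      ContinuousSMul G (HypNet G V U B δ) ∧ HyperbolicGSpace G (HypNet G V U B δ) ∧
      ∀ (X : Type v) [TopologicalSpace X] [MulAction G X] (f : X → HypNet G V U B δ)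
        (_ : Continuous f) (_ : ∀ (g : G) (x : X), f (g • x) = g • f x), HyperbolicGSpace G X) := by
  refine ⟨?_, ?_, ?_⟩
  · intro G _ _ _ _ _ _ _ _ X _ _ _ _
    exact ⟨fun F h => eq_zero_of_redNorm F h, fun F H h => uncNorm_mono h,
      fun hG => exists_kBij hG⟩
  · intro G _ _ _ _ _ _ _ _ H hH ℓ δ hℓ hs X _ _ f hf he
    exact (hyperbolic_quotient H hH hℓ hs).comap f hf he
  · intro G _ _ _ _ _ _ _ _ V U B δ hV h1 hUo hU
    exact ⟨HypNet.t2Space hV h1, HypNet.locallyCompactSpace hV h1 hUo hU,
      HypNet.continuousSMul hV h1, HypNet.hyperbolic hV h1 hUo hU,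
      fun X _ _ f hf he => (HypNet.hyperbolic hV h1 hUo hU).comap f hf he⟩

end Pool.Agent.Lib.MP_aa9b81_an.Old.HyperbolicReturns
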