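import Mathlib
import Pool.Agent.Lib.MP_aa9b81_an.Cov5

/-!
Spaces `X` with a continuous action of a connected group `G` which is a covering of a closed linear
group with algebraic Lie algebra (for example any connected semisimple Lie group): `X` has a finite
filtration by closed invariant sets, and each layer carries a continuous invariant map `q` to some
`ℝ ^ N` such that the sets of points with conjugate isotropy algebras are relatively open in the
fibres of `q`, and map continuously and equivariantly to `G` modulo the normalizer of the isotropy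
algebra.
-/

set_option autoImplicit false
set_option linter.unusedSectionVars false

open Matrix Module

namespace Pool.Agent.Results.MP_aa9b81_an.LocalReduction

variable {n : ℕ} {G : Type*} [Group G]

/-- The isotropy algebra of `x`: the matrices `A` such that `exp (t A)`, `t` real, is the image of a
continuous one-parameter group in `G` fixing `x`. -/
def isoAlg [TopologicalSpace G] (ρ : G →* Matrix.SpecialLinearGroup (Fin n) ℝ) {X : Type*}
    [MulAction G X] (x : X) : Set (Matrix (Fin n) (Fin n) ℝ) :=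
  {A | ∃ c : ℝ → G, Continuous c ∧ (∀ s t : ℝ, c (s + t) = c s * c t) ∧
    ∀ t : ℝ, (ρ (c t) : Matrix (Fin n) (Fin n) ℝ) = NormedSpace.exp (t • A) ∧ c t • x = x}

/-- The Lie algebra of the image of `G` is algebraic: if all the polynomials vanishing on the image
of `G` vanish on the group `exp (t A)`, `t` real, then this group is contained in the image. -/
def AlgebraicLie (ρ : G →* Matrix.SpecialLinearGroup (Fin n) ℝ) : Prop :=
  ∀ A : Matrix (Fin n) (Fin n) ℝ,
    (∀ P : MvPolynomial (Fin n × Fin n) ℝ,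
      (∀ g : G, MvPolynomial.eval (fun p => (ρ g : Matrix (Fin n) (Fin n) ℝ) p.1 p.2) P = 0) →
      ∀ t : ℝ, MvPolynomial.eval
        (fun p => (NormedSpace.exp (t • A) : Matrix (Fin n) (Fin n) ℝ) p.1 p.2) P = 0) →
    ∀ t : ℝ, ∃ g : G, (ρ g : Matrix (Fin n) (Fin n) ℝ) = NormedSpace.exp (t • A)

/-- The conjugate of a set of matrices by (the image of) `g`. -/
def Ad (ρ : G →* Matrix.SpecialLinearGroup (Fin n) ℝ) (g : G)
    (S : Set (Matrix (Fin n) (Fin n) ℝ)) : Set (Matrix (Fin n) (Fin n) ℝ) :=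
  (fun A => (ρ g : Matrix (Fin n) (Fin n) ℝ) * A *
    (ρ g⁻¹ : Matrix (Fin n) (Fin n) ℝ)) '' S

lemma Ad_one (ρ : G →* Matrix.SpecialLinearGroup (Fin n) ℝ) (S : Set (Matrix (Fin n) (Fin n) ℝ)) :
    Ad ρ 1 S = S := by
  ext A
  simp [Ad]

lemma Ad_mul (ρ : G →* Matrix.SpecialLinearGroup (Fin n) ℝ) (g h : G)
    (S : Set (Matrix (Fin n) (Fin n) ℝ)) : Ad ρ (g * h) S = Ad ρ g (Ad ρ h S) := by
  rw [Ad, Ad, Ad, Set.image_image]
  apply Set.image_congr
  intro A _
  rw [_root_.mul_inv_rev, map_mul, map_mul, Matrix.SpecialLinearGroup.coe_mul,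
    Matrix.SpecialLinearGroup.coe_mul]
  noncomm_ring

/-- The normalizer in `G` of a set of matrices. -/
def normalizer (ρ : G →* Matrix.SpecialLinearGroup (Fin n) ℝ)
    (S : Set (Matrix (Fin n) (Fin n) ℝ)) : Subgroup G where
  carrier := {g | Ad ρ g S = S}
  one_mem' := Ad_one ρ S
  mul_mem' := fun {g h} hg hh => by
    change Ad ρ (g * h) S = S
    rw [Ad_mul, hh, hg]
  inv_mem' := fun {g} hg => by
    change Ad ρ g⁻¹ S = S
    have hg' : Ad ρ g S = S := hg
    conv_lhs => rw [← hg']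
    rw [← Ad_mul, inv_mul_cancel, Ad_one]

section Bridge

open Pool.Agent.Lib.MP_aa9b81_an Pool.Agent.Lib.MP_aa9b81_an.N Pool.Agent.Lib.MP_aa9b81_an.Cv
open Pool.Agent.Lib.MP_aa9b81_an.Z (IsAlg ev)
open Filter Topology

lemma Ad_coe (ρ : G →* Matrix.SpecialLinearGroup (Fin n) ℝ) [NeZero n] (g : G)
    (W : Submodule ℝ (Matrix (Fin n) (Fin n) ℝ)) :
    Ad ρ g (W : Set (Matrix (Fin n) (Fin n) ℝ)) = (cjs (ρ g) W : Set (Matrix (Fin n) (Fin n) ℝ)) := by
  ext A
  constructor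
  · rintro ⟨B, hB, rfl⟩
    refine ⟨B, hB, ?_⟩
    change cj (ρ g) B = _
    rw [cj_apply, map_inv]
  · rintro ⟨B, hB, rfl⟩
    refine ⟨B, hB, ?_⟩
    change _ = cj (ρ g) B
    rw [cj_apply, map_inv]

variable [NeZero n] [TopologicalSpace G] [IsTopologicalGroup G]
variable {X : Type*} [TopologicalSpace X] [T2Space X] [MulAction G X] [ContinuousSMul G X]
variable {ρ : G →* Matrix.SpecialLinearGroup (Fin n) ℝ}

lemma isoAlg_eq (hρ : IsCoveringMap ρ.rangeRestrict) (hcl : IsClosed (Set.range ρ)) (x : X) :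
    isoAlg ρ x = (isoC hρ hcl x : Set (Matrix (Fin n) (Fin n) ℝ)) := by
  ext A
  exact (mem_isoC' hρ hcl).symm

lemma isAlg_gl (hcl : IsClosed (Set.range ρ)) (h : AlgebraicLie ρ) : IsAlg (gl hcl) := by
  intro A hA
  rw [mem_gl]
  apply h A
  intro P hP t
  have h1 := hA P (fun M hM => by
    obtain ⟨g, rfl⟩ := exists_of_mem_Gen_gl hcl hM
    rw [ev, MvPolynomial.aeval_eq_eval]
    exact hP g) t
  rw [ev, MvPolynomial.aeval_eq_eval] at h1
  exact h1

end Bridge

open Pool.Agent.Lib.MP_aa9b81_an.N Pool.Agent.Lib.MP_aa9b81_an.Cv in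
open Filter Topology in
/-- Main result. -/
theorem result {n : ℕ} [NeZero n] {G : Type*} [Group G] [TopologicalSpace G]
    [IsTopologicalGroup G] [ConnectedSpace G] (ρ : G →* Matrix.SpecialLinearGroup (Fin n) ℝ)
    (hρ : IsCoveringMap ρ.rangeRestrict) (hcl : IsClosed (Set.range ρ)) (halg : AlgebraicLie ρ)
    {X : Type*} [TopologicalSpace X] [T2Space X] [MulAction G X] [ContinuousSMul G X] :
    ∃ (m : ℕ) (F : ℕ → Set X),
      (∀ i, IsClosed (F i)) ∧ (∀ i, ∀ g : G, ∀ x ∈ F i, g • x ∈ F i) ∧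
      (∀ i, F i ⊆ F (i + 1)) ∧ F 0 = ∅ ∧ F m = Set.univ ∧
      ∀ i < m, ∃ (N : ℕ) (q : X → (Fin N → ℝ)), ContinuousOn q (F (i + 1) \ F i) ∧
        (∀ (g : G) (x : X), q (g • x) = q x) ∧
        ∀ x ∈ F (i + 1) \ F i, ∃ (U : Set X) (f : X → G ⧸ normalizer ρ (isoAlg ρ x)), IsOpen U ∧
          {y | ∃ g : G, isoAlg ρ y = Ad ρ g (isoAlg ρ x)} =
            {y | y ∈ F (i + 1) \ F i ∧ q y = q x} ∩ U ∧
          ContinuousOn f {y | ∃ g : G, isoAlg ρ y = Ad ρ g (isoAlg ρ x)} ∧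
          ∀ y, (∃ g : G, isoAlg ρ y = Ad ρ g (isoAlg ρ x)) → ∀ g : G,
            f (g • y) = g • f y ∧ (f y = g ↔ isoAlg ρ y = Ad ρ g (isoAlg ρ x)) := by
  obtain ⟨m, F, f0, fm, f1, f2, f3, f4⟩ := exists_seq (isoC (X := X) hρ hcl)
    (stratX_univ (isoC (X := X) hρ hcl) (cf_isoC hρ hcl) (mem_Gen_gl hρ hcl)
      (fun N hN => small_lift hρ hcl hN) (conj_gl hcl) (isAlg_gl hcl halg))
  refine ⟨m, F, f1, fun i g x hx => f2 i x _ hx ⟨g, isoC_smul hρ hcl g x⟩, f3, f0, fm, fun i hi => ?_⟩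
  obtain ⟨κ, iκ, q, hq1, hq2, hq3⟩ := f4 i hi
  let e : κ ≃ Fin (Fintype.card κ) := Fintype.equivFin κ
  have hqe : ∀ y y' : X, (fun j => q y (e.symm j)) = (fun j => q y' (e.symm j)) ↔ q y = q y' := by
    intro y y'
    constructor
    · intro h
      funext k
      have h1 := congrFun h (e k)
      simpa only [Equiv.symm_apply_apply] using h1
    · intro h
      rw [h]
  refine ⟨Fintype.card κ, fun y j => q y (e.symm j), ?_, ?_, ?_⟩
  · intro y hy
    refine tendsto_pi_nhds.2 fun j => ?_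
    exact (tendsto_pi_nhds.1 (hq1 y hy)) (e.symm j)
  · intro g x
    exact (hqe _ _).2 (hq2 x (g • x) ⟨g, isoC_smul hρ hcl g x⟩).symm
  · intro x hx
    have hact : ∀ (g h : G) (S : Submodule ℝ (Matrix (Fin n) (Fin n) ℝ)),
        cjs (ρ (g * h)) S = cjs (ρ g) (cjs (ρ h) S) := by
      intro g h S
      rw [map_mul, cjs_mul]
    have hAd : ∀ (y : X) (g : G), isoAlg ρ y = Ad ρ g (isoAlg ρ x) ↔
        isoC hρ hcl y = cjs (ρ g) (isoC hρ hcl x) := by
      intro y g
      rw [isoAlg_eq hρ hcl, isoAlg_eq hρ hcl, Ad_coe, SetLike.coe_set_eq]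
    obtain ⟨U, hU, hUeq, f, hf1, hf2⟩ := lift_act (act := fun g : G => cjs (ρ g))
      (fun S => by rw [map_one, cjs_one]) hact (hq3 x hx) (isoC hρ hcl x)
      (normalizer ρ (isoAlg ρ x)) (by
        intro g
        change Ad ρ g (isoAlg ρ x) = isoAlg ρ x ↔ _
        rw [isoAlg_eq hρ hcl, Ad_coe, SetLike.coe_set_eq])
    have hcls : ∀ y : X, (∃ g : G, isoC hρ hcl y = cjs (ρ g) (isoC hρ hcl x)) →
        y ∈ F (i + 1) \ F i ∧ q y = q x := by
      rintro y ⟨g, hg⟩
      have hg' : isoC hρ hcl x = cjs (ρ g⁻¹) (isoC hρ hcl y) := by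
        rw [hg, ← hact, inv_mul_cancel, map_one, cjs_one]
      exact ⟨⟨f2 (i + 1) x y hx.1 ⟨g, hg⟩, fun h => hx.2 (f2 i y x h ⟨g⁻¹, hg'⟩)⟩,
        (hq2 x y ⟨g, hg⟩).symm⟩
    have hset : {y | ∃ g : G, isoAlg ρ y = Ad ρ g (isoAlg ρ x)} =
        {y | y ∈ F (i + 1) \ F i ∧ q y = q x} ∩ U := by
      rw [← hUeq]
      ext y
      simp only [Set.mem_ofPred_eq, hAd]
      exact ⟨fun h => ⟨hcls y h, h⟩, fun h => h.2⟩
    refine ⟨U, f, hU, ?_, ?_, ?_⟩
    · simp only [hqe]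
      exact hset
    · rw [hset]
      exact hf1
    · intro y hy g
      have hyU : y ∈ {y | y ∈ F (i + 1) \ F i ∧ q y = q x} ∩ U := by
        rw [← hset]
        exact hy
      obtain ⟨g₀, hg₀⟩ := hy
      rw [hAd] at hg₀
      have hgU : g • y ∈ {y | y ∈ F (i + 1) \ F i ∧ q y = q x} ∩ U := by
        rw [← hset]
        refine ⟨g * g₀, ?_⟩
        rw [hAd, isoC_smul, hg₀, hact]
      refine ⟨?_, ?_⟩
      · have h1 : f y = (g₀ : G ⧸ normalizer ρ (isoAlg ρ x)) := (hf2 y hyU g₀).2 hg₀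
        have h2 : f (g • y) = ((g * g₀ : G) : G ⧸ normalizer ρ (isoAlg ρ x)) := by
          rw [hf2 (g • y) hgU]
          rw [isoC_smul, hg₀, hact]
        rw [h1, h2]
        rfl
      · rw [hf2 y hyU g, hAd]

end Pool.Agent.Results.MP_aa9b81_an.LocalReduction
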