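import Pool.Agent.Lib.MP_aa9b81_an.TC.Bij

/-!
# One free action on the Cantor set suffices

For every countable discrete group `Γ` there is one free action of `Γ` on the Cantor set (a nonempty
compact metrizable totally disconnected space without isolated points) such that, whenever `Γ` acts
amenably on a compact convex set `Q`, the projections `Y × Q → Y` induce isomorphisms of the
`K`-groups of the reduced crossed products for ALL locally compact Hausdorff `Γ`-spaces `Y` if and
only if they do so for all subshifts of finite type, if and only if they do so for this one space.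
-/

open Filter Topology

namespace Pool.Agent.Results.MP_aa9b81_an.UniversalCantor

open Pool.Agent.Lib.MP_aa9b81_an.Cut

theorem result (Γ : Type) [Group Γ] [Countable Γ] :
    ∃ (U : Type) (_ : TopologicalSpace U) (_ : MulAction Γ U),
      ContinuousConstSMul Γ U ∧ CompactSpace U ∧ TopologicalSpace.MetrizableSpace U ∧
      TotallyDisconnectedSpace U ∧ PerfectSpace U ∧ Nonempty U ∧
      (∀ z : U, MulAction.stabilizer Γ z = ⊥) ∧
      ∀ (E : Type) [AddCommGroup E] [Module ℝ E] [TopologicalSpace E] [T2Space E]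
        [ContinuousAdd E] [ContinuousSMul ℝ E] [DistribMulAction Γ E] [SMulCommClass Γ ℝ E]
        [ContinuousConstSMul Γ E] [LocallyConvexSpace ℝ E] (Q : ConvexSpace Γ E),
        AmenableAction Γ Q.Pt →
        List.TFAE [
          ∀ᶠ j in atTop, ∀ (Y : Type) [TopologicalSpace Y] [T2Space Y] [LocallyCompactSpace Y]
            [MulAction Γ Y] [ContinuousConstSMul Γ Y],
            K1Bij Γ (fun x : Y × Q.Pt × Cube j => ((x.1, x.2.2) : Y × Cube j)),
          ∀ᶠ j in atTop, ∀ (n : ℕ) (F : Finset Γ) (P : Set (F → Fin n)),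
            K1Bij Γ (fun x : SFT Γ n F P × Q.Pt × Cube j => ((x.1, x.2.2) : SFT Γ n F P × Cube j)),
          ∀ᶠ j in atTop, K1Bij Γ (fun x : U × Q.Pt × Cube j => ((x.1, x.2.2) : U × Cube j))] := by
  refine ⟨UF Γ, inferInstance, inferInstance, inferInstance, inferInstance, metrizable_UF Γ,
    inferInstance, inferInstance, inferInstance, stabilizer_UF, ?_⟩
  intro E _ _ _ _ _ _ _ _ _ _ Q hQ
  have hcone := cone_locallyCompact Q
  have hA := propA_of_convexSpace Q hQ
  have hT : ∀ (n : ℕ) (F : Finset Γ) (P : Set (F → Fin n)), T2Space (SFT Γ n F P) :=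
    fun n F P => (SFT.isClosedEmbedding_val F P).isEmbedding.t2Space
  have hC : ∀ (n : ℕ) (F : Finset Γ) (P : Set (F → Fin n)), CompactSpace (SFT Γ n F P) :=
    fun n F P => (SFT.isClosedEmbedding_val F P).compactSpace
  tfae_have 1 → 2 := fun h => h.mono fun j hj n F P => hj _
  tfae_have 1 → 3 := fun h => h.mono fun j hj => hj _
  tfae_have 2 → 1 := by
    rw [eventually_atTop, eventually_atTop]
    rintro ⟨J, hJ⟩
    have h0 : ∀ j ≥ J, ∀ (n : ℕ) (F : Finset Γ) (P : Set (F → Fin n)),
        GL1 (cp Γ (SFT Γ n F P × Cone Q × Cube j)) ≤ E1 (cp Γ (SFT Γ n F P × Cone Q × Cube j)) :=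
      fun j hj n F P => k1Zero_iff.1
        (zero_of_k1Bij_prQ Q hA (fun i hi => hJ i hi n F P) j hj)
    refine ⟨J + 1, fun j hj Y _ _ _ _ _ => ?_⟩
    exact k1Bij_prQ_of_zero Q hA (fun i hi => k1Zero_iff.2 (sft_suffice_total Q hQ i (h0 i hi)
        (h0 (i + 1) (hi.trans (Nat.le_succ i)) 1 ∅ Set.univ))) j hj
  tfae_have 3 → 1 := by
    rw [eventually_atTop, eventually_atTop]
    rintro ⟨J, hJ⟩
    refine ⟨J + 1, fun j hj Y _ _ _ _ _ => ?_⟩
    exact k1Bij_prQ_of_zero Q hA (fun i hi => k1Zero_iff.2 (universal_free Γ E Q hQ J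
      (fun i hi => k1Zero_iff.1 (zero_of_k1Bij_prQ Q hA hJ i hi)) hi)) j hj
  tfae_finish

end Pool.Agent.Results.MP_aa9b81_an.UniversalCantor
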